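import Pool.Agent.H64SwK.Up

/-!
# The climb (helper64, after helper79)

`cut w R` is the restriction of `w` to the set `R`. From every member `(I, J)` of `R` at a level
`k` with `2 k < r` one climbs, for the fixed `J`, to a member `(I', J + j)`.
-/

set_option autoImplicit false

open Finset

namespace Pool.Agent.H64SwK

open Classical in
/-- The restriction of `w` to `R`. -/
noncomputable def cut {K : Type*} [Field K] {r : ℕ} (w : Finset (Fin r) → Finset (Fin r) → K)
    (R : Finset (Fin r) → Finset (Fin r) → Prop) (I J : Finset (Fin r)) : K :=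
  if R I J then w I J else 0

section

variable {K : Type*} [Field K] {r m : ℕ} {w : Finset (Fin r) → Finset (Fin r) → K}
  {R : Finset (Fin r) → Finset (Fin r) → Prop}

theorem cut_neg {I J : Finset (Fin r)} (h : ¬ R I J) : cut w R I J = 0 := by
  simp [cut, h]

theorem cut_pos {I J : Finset (Fin r)} (h : R I J) : cut w R I J = w I J := by
  simp [cut, h]

theorem cut_eq {I J : Finset (Fin r)} (h : w I J ≠ 0 → R I J) : cut w R I J = w I J := by
  by_cases hw : w I J = 0
  · by_cases hR : R I J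
    · exact cut_pos hR
    · rw [cut_neg hR, hw]
  · exact cut_pos (h hw)

theorem of_cut_ne {I J : Finset (Fin r)} (h : cut w R I J ≠ 0) : R I J := by
  by_contra hn
  exact h (cut_neg hn)

theorem cut_lvl (hw : Rel w) {I J : Finset (Fin r)} (h : I.card ≠ J.card) :
    cut w R I J = 0 := by
  by_cases hR : R I J
  · rw [cut_pos hR, hw.lvl I J h]
  · exact cut_neg hR

/-- a lower node of an `S`-type half node is in `R`: both sums are complete -/
theorem lowS_full (hR : Closed w m R) {I J : Finset (Fin r)}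
    (h : ∃ i ∈ I, R (I.erase i) J) :
    ∑ i ∈ I, cut w R (I.erase i) J = ∑ i ∈ I, w (I.erase i) J ∧
    ∑ j ∈ Jᶜ, cut w R I (insert j J) = ∑ j ∈ Jᶜ, w I (insert j J) := by
  obtain ⟨i, hi, hRi⟩ := h
  constructor
  · refine Finset.sum_congr rfl fun i' hi' => cut_eq fun hne => ?_
    by_cases e : i' = i
    · rw [e]; exact hRi
    · have e2 : insert i ((I.erase i).erase i') = I.erase i' := by
        ext a
        simp only [mem_insert, mem_erase]
        constructor
        · rintro (rfl | ⟨h1, h2, h3⟩)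
          · exact ⟨fun h => e h.symm, hi⟩
          · exact ⟨h1, h3⟩
        · rintro ⟨h1, h2⟩
          by_cases h3 : a = i
          · exact Or.inl h3
          · exact Or.inr ⟨h1, h3, h2⟩
      have := hR.hs (I.erase i) J i i' hRi (mem_erase.2 ⟨e, hi'⟩) (notMem_erase i I)
      rw [e2] at this
      exact this hne
  · refine Finset.sum_congr rfl fun j hj => cut_eq fun hne => ?_
    have := hR.up (I.erase i) J i j hRi (notMem_erase i I) (by simpa using hj)
    rw [insert_erase hi] at this
    exact this hne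

theorem lowS_none {I J : Finset (Fin r)} (h : ¬ ∃ i ∈ I, R (I.erase i) J) :
    ∑ i ∈ I, cut w R (I.erase i) J = 0 :=
  Finset.sum_eq_zero fun i hi => cut_neg fun hRi => h ⟨i, hi, hRi⟩

theorem uppS_full (hR : Closed w m R) {I J : Finset (Fin r)} (h1 : m ≤ I.card)
    (h2 : I.card ≤ m + 1) (h : ∃ j ∈ Jᶜ, R I (insert j J)) :
    ∑ j ∈ Jᶜ, cut w R I (insert j J) = ∑ j ∈ Jᶜ, w I (insert j J) := by
  obtain ⟨j, hj, hRj⟩ := h
  rw [mem_compl] at hj
  refine Finset.sum_congr rfl fun j' hj' => cut_eq fun hne => ?_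
  rw [mem_compl] at hj'
  by_cases e : j' = j
  · rw [e]; exact hRj
  · have := hR.ht I (insert j J) j' j hRj h1 h2 (mem_insert_self j J)
      (by simp only [mem_insert, not_or]; exact ⟨e, hj'⟩)
    rw [erase_insert hj] at this
    exact this hne

theorem uppS_none {I J : Finset (Fin r)} (h : ¬ ∃ j ∈ Jᶜ, R I (insert j J)) :
    ∑ j ∈ Jᶜ, cut w R I (insert j J) = 0 :=
  Finset.sum_eq_zero fun i hi => cut_neg fun hRi => h ⟨i, hi, hRi⟩

/-- `T`-type half nodes -/
theorem lowT_full (hR : Closed w m R) {I J : Finset (Fin r)} (h1 : m ≤ I.card)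
    (h2 : I.card ≤ m + 1) (h : ∃ j ∈ J, R I (J.erase j)) :
    ∑ j ∈ J, cut w R I (J.erase j) = ∑ j ∈ J, w I (J.erase j) ∧
    ∑ i ∈ Iᶜ, cut w R (insert i I) J = ∑ i ∈ Iᶜ, w (insert i I) J := by
  obtain ⟨j, hj, hRj⟩ := h
  constructor
  · refine Finset.sum_congr rfl fun j' hj' => cut_eq fun hne => ?_
    by_cases e : j' = j
    · rw [e]; exact hRj
    · have e2 : insert j ((J.erase j).erase j') = J.erase j' := by
        ext a
        simp only [mem_insert, mem_erase]
        constructor
        · rintro (rfl | ⟨h1, h2, h3⟩)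
          · exact ⟨fun h => e h.symm, hj⟩
          · exact ⟨h1, h3⟩
        · rintro ⟨h1, h2⟩
          by_cases h3 : a = j
          · exact Or.inl h3
          · exact Or.inr ⟨h1, h3, h2⟩
      have := hR.ht I (J.erase j) j j' hRj h1 h2 (mem_erase.2 ⟨e, hj'⟩) (notMem_erase j J)
      rw [e2] at this
      exact this hne
  · refine Finset.sum_congr rfl fun i hi => cut_eq fun hne => ?_
    have := hR.up I (J.erase j) i j hRj (by simpa using hi) (notMem_erase j J)
    rw [insert_erase hj] at this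
    exact this hne

theorem lowT_none {I J : Finset (Fin r)} (h : ¬ ∃ j ∈ J, R I (J.erase j)) :
    ∑ j ∈ J, cut w R I (J.erase j) = 0 :=
  Finset.sum_eq_zero fun i hi => cut_neg fun hRi => h ⟨i, hi, hRi⟩

theorem uppT_full (hR : Closed w m R) {I J : Finset (Fin r)}
    (h : ∃ i ∈ Iᶜ, R (insert i I) J) :
    ∑ i ∈ Iᶜ, cut w R (insert i I) J = ∑ i ∈ Iᶜ, w (insert i I) J := by
  obtain ⟨i, hi, hRi⟩ := h
  rw [mem_compl] at hi
  refine Finset.sum_congr rfl fun i' hi' => cut_eq fun hne => ?_
  rw [mem_compl] at hi'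
  by_cases e : i' = i
  · rw [e]; exact hRi
  · have := hR.hs (insert i I) J i' i hRi (mem_insert_self i I)
      (by simp only [mem_insert, not_or]; exact ⟨e, hi'⟩)
    rw [erase_insert hi] at this
    exact this hne

theorem uppT_none {I J : Finset (Fin r)} (h : ¬ ∃ i ∈ Iᶜ, R (insert i I) J) :
    ∑ i ∈ Iᶜ, cut w R (insert i I) J = 0 :=
  Finset.sum_eq_zero fun i hi => cut_neg fun hRi => h ⟨i, hi, hRi⟩

/-- one level up, `J` grows by one element -/
theorem climb (hw : Rel w) (hR : Closed w m R) {I J : Finset (Fin r)} (h : R I J)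
    (hJ : 2 * J.card < r) (hK : ∀ s : ℕ, 0 < s → s ≤ J.card + 1 → (s : K) ≠ 0) :
    ∃ I' j, j ∉ J ∧ R I' (insert j J) := by
  by_contra hn
  push Not at hn
  have hzero : ∀ I' : Finset (Fin r), ∑ i ∈ I', cut w R (I'.erase i) J = 0 := by
    intro I'
    by_cases h1 : ∃ i ∈ I', R (I'.erase i) J
    · obtain ⟨a, b⟩ := lowS_full hR h1
      obtain ⟨i, hi, hRi⟩ := h1
      have hc : I'.card = J.card + 1 := by
        have h2 : (I'.erase i).card = J.card := by
          by_contra h3
          exact hR.nz _ _ hRi (hw.lvl _ _ h3)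
        rw [card_erase_of_mem hi] at h2
        have : 0 < I'.card := card_pos.2 ⟨i, hi⟩
        omega
      rw [a, hw.rs I' J hc, ← b]
      refine Finset.sum_eq_zero fun j hj => cut_neg ?_
      rw [mem_compl] at hj
      exact hn I' j hj
    · exact lowS_none h1
  have h0 := up_inj hJ hK (fun I => cut w R I J) (fun I hI => cut_lvl hw hI) hzero I
  rw [cut_pos h] at h0
  exact hR.nz _ _ h h0

end

/-- `R` reaches the level `m`. -/
theorem reach {K : Type*} [Field K] {r m : ℕ} (hr : r = 2 * m + 1)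
    (hK : ∀ s : ℕ, 0 < s → s ≤ m + 1 → (s : K) ≠ 0)
    {w : Finset (Fin r) → Finset (Fin r) → K}
    (hw : Rel w) {R : Finset (Fin r) → Finset (Fin r) → Prop} (hR : Closed w m R)
    (h0 : R ∅ ∅) : ∃ I J, I.card = m ∧ J.card = m ∧ R I J := by
  have key : ∀ k, k ≤ m → ∃ I J, J.card = k ∧ R I J := by
    intro k
    induction k with
    | zero => exact fun _ => ⟨∅, ∅, rfl, h0⟩
    | succ k ih =>
      intro hk
      obtain ⟨I, J, hJ, h⟩ := ih (by omega)
      obtain ⟨I', j, hj, h'⟩ := climb hw hR h (by omega) fun s hs hs' => hK s hs (by omega)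
      exact ⟨I', insert j J, by rw [card_insert_of_notMem hj, hJ], h'⟩
  obtain ⟨I, J, hJ, h⟩ := key m le_rfl
  refine ⟨I, J, ?_, hJ, h⟩
  rw [← hJ]
  by_contra hn
  exact hR.nz _ _ h (hw.lvl _ _ hn)

end Pool.Agent.H64SwK
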