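import Mathlib

/-!
# The middle of the monotone swap theorem

The disjointness operator `KK` on the functions on the `m`-subsets of a set with `2 m + 1` elements
is triangular with respect to the filtration by the functions `I ↦ ∑_{T ⊆ I} u T`, `u` supported on
the sets with less than `j` elements; the diagonal entries are `(-1) ^ j * (m + 1 - j)`. Hence an
operator which anticommutes with `KK` is zero.
-/

set_option autoImplicit false

open Finset

namespace Pool.Agent.H64SwK

variable {K : Type*} [Field K] {r m : ℕ}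

/-- the disjointness operator -/
def KK (f : Finset (Fin r) → K) (I : Finset (Fin r)) : K := ∑ x ∈ Iᶜ, f (Iᶜ.erase x)

/-- the filtration -/
def InW (m j : ℕ) (f : Finset (Fin r) → K) : Prop :=
  ∃ u : Finset (Fin r) → K, (∀ T, j ≤ T.card → u T = 0) ∧
    ∀ I : Finset (Fin r), I.card = m → f I = ∑ T ∈ I.powerset, u T

theorem powerset_erase (s : Finset (Fin r)) (x : Fin r) :
    (s.erase x).powerset = s.powerset.filter (x ∉ ·) := by
  ext T
  rw [mem_powerset, mem_filter, mem_powerset, subset_erase]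

theorem card_compl_eq (hr : r = 2 * m + 1) {I : Finset (Fin r)} (hI : I.card = m) :
    Iᶜ.card = m + 1 := by
  rw [card_compl, Fintype.card_fin, hI]
  omega

theorem KK_eq (hr : r = 2 * m + 1) {f u : Finset (Fin r) → K}
    (hu : ∀ I : Finset (Fin r), I.card = m → f I = ∑ T ∈ I.powerset, u T) {I : Finset (Fin r)}
    (hI : I.card = m) : KK f I = ∑ T ∈ Iᶜ.powerset, ((m : K) + 1 - T.card) * u T := by
  have hc := card_compl_eq hr hI
  have h1 : KK f I = ∑ x ∈ Iᶜ, ∑ T ∈ Iᶜ.powerset, if x ∉ T then u T else 0 := by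
    refine sum_congr rfl fun x hx => ?_
    rw [hu _ (by rw [card_erase_of_mem hx, hc]; rfl), powerset_erase, sum_filter]
  rw [h1, sum_comm]
  refine sum_congr rfl fun T hT => ?_
  rw [← sum_filter, sum_const, nsmul_eq_mul]
  congr 1
  have h2 : Iᶜ.filter (· ∉ T) = Iᶜ \ T := by
    ext x
    rw [mem_filter, mem_sdiff]
  have h3 : (Iᶜ \ T).card + T.card = m + 1 := by
    rw [← hc]
    exact card_sdiff_add_card_eq_card (mem_powerset.1 hT)
  have h4 := congrArg (Nat.cast : ℕ → K) h3
  push_cast at h4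
  rw [h2, eq_sub_iff_add_eq]
  exact h4

theorem sum_alt (I : Finset (Fin r)) (c : Finset (Fin r) → K) :
    ∑ S ∈ I.powerset, (-1 : K) ^ S.card * ∑ T, (if S ⊆ T then c T else 0) =
      ∑ T ∈ Iᶜ.powerset, c T := by
  have h1 : ∀ S ∈ I.powerset, (-1 : K) ^ S.card * ∑ T, (if S ⊆ T then c T else 0) =
      ∑ T, (if S ⊆ T then (-1 : K) ^ S.card else 0) * c T := by
    intro S _
    rw [mul_sum]
    refine sum_congr rfl fun T _ => ?_
    split_ifs <;> ring
  rw [sum_congr rfl h1, sum_comm]
  have h2 : ∀ T : Finset (Fin r), ∑ S ∈ I.powerset, (if S ⊆ T then (-1 : K) ^ S.card else 0) * c T =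
      if T ⊆ Iᶜ then c T else 0 := by
    intro T
    rw [← sum_mul, ← sum_filter]
    have h3 : I.powerset.filter (· ⊆ T) = (I ∩ T).powerset := by
      ext S
      rw [mem_filter, mem_powerset, mem_powerset, subset_inter_iff]
    have h4 : ∑ S ∈ (I ∩ T).powerset, (-1 : K) ^ S.card = if I ∩ T = ∅ then 1 else 0 := by
      have := sum_powerset_neg_one_pow_card (x := I ∩ T)
      have h5 := congrArg (Int.cast : ℤ → K) this
      push_cast at h5
      exact h5
    rw [h3, h4]
    have h6 : I ∩ T = ∅ ↔ T ⊆ Iᶜ := by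
      rw [← disjoint_iff_inter_eq_empty, subset_compl_iff_disjoint_left]
    by_cases h : T ⊆ Iᶜ
    · rw [if_pos h, if_pos (h6.2 h), one_mul]
    · rw [if_neg h, if_neg (fun h' => h (h6.1 h')), zero_mul]
  rw [sum_congr rfl fun T _ => h2 T, ← sum_filter]
  refine sum_congr ?_ fun _ _ => rfl
  ext T
  rw [mem_filter, mem_powerset]
  exact ⟨fun h => h.2, fun h => ⟨mem_univ _, h⟩⟩

/-- the diagonal entries -/
def lam (m j : ℕ) : K := (-1) ^ j * ((m : K) + 1 - j)

theorem lam_ne {m i j : ℕ} (h2 : (2 : K) ≠ 0) (hK : ∀ s : ℕ, 0 < s → s ≤ m + 1 → (s : K) ≠ 0)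
    (hi : i ≤ m) (hj : j ≤ m) : -(lam m j : K) ≠ lam m i := by
  intro h
  have hc : ∀ i : ℕ, i ≤ m → (m : K) + 1 - i = ((m + 1 - i : ℕ) : K) := fun i hi => by
    rw [Nat.cast_sub (by omega)]
    push_cast
    rfl
  have h3 : (lam m i : K) + lam m j = 0 := by
    rw [← h]
    ring
  rw [lam, lam, hc i hi, hc j hj] at h3
  -- different parity
  have hdiff : ∀ a b : ℕ, 0 < a → a ≤ m + 1 → 0 < b → b ≤ m + 1 → a ≠ b → (a : K) - b ≠ 0 := by
    have hlt : ∀ a b : ℕ, a ≤ m + 1 → b < a → (a : K) - b ≠ 0 := fun a b ha hb => by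
      rw [← Nat.cast_sub hb.le]
      exact hK _ (by omega) (by omega)
    intro a b _ ha' _ hb' hne
    rcases lt_or_gt_of_ne hne with h | h
    · intro h'
      exact hlt b a hb' h (by linear_combination -h')
    · exact hlt a b ha' h
  rcases Nat.even_or_odd i with hi' | hi' <;> rcases Nat.even_or_odd j with hj' | hj'
  · rw [hi'.neg_one_pow, hj'.neg_one_pow, one_mul, one_mul, ← Nat.cast_add] at h3
    obtain ⟨a, ha⟩ := hi'
    obtain ⟨b, hb⟩ := hj'
    have h4 : (m + 1 - i) + (m + 1 - j) = 2 * (m + 1 - (a + b)) := by omega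
    rw [h4, Nat.cast_mul] at h3
    exact (mul_ne_zero (by exact_mod_cast h2) (hK _ (by omega) (by omega))) h3
  · rw [hi'.neg_one_pow, hj'.neg_one_pow] at h3
    refine hdiff (m + 1 - i) (m + 1 - j) (by omega) (by omega) (by omega) (by omega) ?_
      (by linear_combination h3)
    obtain ⟨a, ha⟩ := hi'
    obtain ⟨b, hb⟩ := hj'
    omega
  · rw [hi'.neg_one_pow, hj'.neg_one_pow] at h3
    refine hdiff (m + 1 - i) (m + 1 - j) (by omega) (by omega) (by omega) (by omega) ?_
      (by linear_combination -h3)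
    obtain ⟨a, ha⟩ := hi'
    obtain ⟨b, hb⟩ := hj'
    omega
  · rw [hi'.neg_one_pow, hj'.neg_one_pow] at h3
    obtain ⟨a, ha⟩ := hi'
    obtain ⟨b, hb⟩ := hj'
    have h5 : (((m + 1 - i) + (m + 1 - j) : ℕ) : K) = 0 := by
      rw [Nat.cast_add]
      linear_combination -h3
    have h4 : (m + 1 - i) + (m + 1 - j) = 2 * (m - (a + b)) := by omega
    rw [h4, Nat.cast_mul] at h5
    exact (mul_ne_zero (by exact_mod_cast h2) (hK _ (by omega) (by omega))) h5

theorem inW_step (hr : r = 2 * m + 1) {j : ℕ} {f : Finset (Fin r) → K} (hf : InW m (j + 1) f) :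
    InW m j (fun I => KK f I - lam m j * f I) := by
  obtain ⟨u, h0, hu⟩ := hf
  refine ⟨fun S => (-1 : K) ^ S.card * ∑ T, (if S ⊆ T then ((m : K) + 1 - T.card) * u T else 0) -
    lam m j * u S, fun S hS => ?_, fun I hI => ?_⟩
  · have h1 : ∑ T, (if S ⊆ T then ((m : K) + 1 - T.card) * u T else 0) =
        ((m : K) + 1 - S.card) * u S := by
      rw [sum_eq_single S, if_pos subset_rfl]
      · intro T _ hT
        split_ifs with h
        · have : S.card < T.card := card_lt_card (h.ssubset_of_ne (Ne.symm hT))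
          rw [h0 T (by omega), mul_zero]
        · rfl
      · intro h
        exact absurd (mem_univ _) h
    show (-1 : K) ^ S.card * ∑ T, (if S ⊆ T then ((m : K) + 1 - T.card) * u T else 0) -
      lam m j * u S = 0
    rw [h1]
    rcases hS.lt_or_eq with h | h
    · rw [h0 S h]
      ring
    · rw [lam, ← h]
      ring
  · show KK f I - lam m j * f I = _
    rw [sum_sub_distrib, sum_alt, ← mul_sum, ← hu I hI, KK_eq hr hu hI]

theorem inW_top (f : Finset (Fin r) → K) : InW m (m + 1) f := by
  refine ⟨fun T => if T.card = m then f T else 0, fun T hT => if_neg (by omega), fun I hI => ?_⟩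
  rw [sum_eq_single I, if_pos hI]
  · intro T hT hne
    refine if_neg fun h => hne ?_
    exact eq_of_subset_of_card_le (mem_powerset.1 hT) (by omega)
  · intro h
    exact absurd (mem_powerset_self I) h

theorem inW_smul {j : ℕ} {f : Finset (Fin r) → K} {c : K} (hc : c ≠ 0)
    (hf : InW m j fun I => c * f I) : InW m j f := by
  obtain ⟨u, h0, hu⟩ := hf
  refine ⟨fun T => c⁻¹ * u T, fun T hT => ?_, fun I hI => ?_⟩
  · show c⁻¹ * u T = 0
    rw [h0 T hT, mul_zero]
  · rw [← mul_sum, ← hu I hI, inv_mul_cancel_left₀ hc]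

/-- no other eigenvalues -/
theorem eig_zero (hr : r = 2 * m + 1) {v : Finset (Fin r) → K} {μ : K}
    (hμ : ∀ i ≤ m, μ ≠ lam m i) (hv : ∀ I : Finset (Fin r), I.card = m → KK v I = μ * v I) :
    ∀ I : Finset (Fin r), I.card = m → v I = 0 := by
  have h1 : ∀ i, i ≤ m + 1 → InW m (m + 1 - i) v := by
    intro i
    induction i with
    | zero => exact fun _ => inW_top v
    | succ i ih =>
      intro hi
      have h2 := ih (by omega)
      have h3 : m + 1 - i = (m - i) + 1 := by omega
      rw [h3] at h2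
      have h4 := inW_step hr h2
      have h5 : m + 1 - (i + 1) = m - i := by omega
      rw [h5]
      refine inW_smul (sub_ne_zero.2 (hμ (m - i) (by omega))) ?_
      obtain ⟨u, h6, h7⟩ := h4
      refine ⟨u, h6, fun I hI => ?_⟩
      rw [← h7 I hI]
      show (μ - lam m (m - i)) * v I = KK v I - lam m (m - i) * v I
      rw [hv I hI]
      ring
  intro I hI
  obtain ⟨u, h2, h3⟩ := h1 (m + 1) le_rfl
  rw [h3 I hI]
  exact sum_eq_zero fun T _ => h2 T (by omega)

/-- the sum over the `m`-sets -/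
theorem KK_sum (hr : r = 2 * m + 1) (f : Finset (Fin r) → K) {I : Finset (Fin r)}
    (hI : I.card = m) :
    KK f I = ∑ P, if P.card = m ∧ Disjoint P I then f P else 0 := by
  have hc := card_compl_eq hr hI
  rw [← sum_filter]
  have h1 : univ.filter (fun P : Finset (Fin r) => P.card = m ∧ Disjoint P I) =
      Iᶜ.image fun x => Iᶜ.erase x := by
    ext P
    rw [mem_filter, mem_image]
    constructor
    · rintro ⟨-, h1, h2⟩
      have h3 : P ⊆ Iᶜ := subset_compl_iff_disjoint_right.2 h2
      have h4 : (Iᶜ \ P).card + P.card = m + 1 := by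
        rw [← hc]
        exact card_sdiff_add_card_eq_card h3
      obtain ⟨x, hx⟩ := card_eq_one.1 (show (Iᶜ \ P).card = 1 by omega)
      have hx' : x ∈ Iᶜ \ P := by rw [hx]; exact mem_singleton_self x
      refine ⟨x, (mem_sdiff.1 hx').1, ?_⟩
      rw [← sdiff_singleton_eq_erase, ← hx, Finset.sdiff_sdiff_eq_self h3]
    · rintro ⟨x, hx, rfl⟩
      refine ⟨mem_univ _, ?_, ?_⟩
      · rw [card_erase_of_mem hx, hc]
        rfl
      · exact subset_compl_iff_disjoint_right.1 (erase_subset _ _)
  rw [h1, sum_image]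
  · rfl
  · intro x hx y hy h
    by_contra hne
    have h2 : x ∈ Iᶜ.erase y := mem_erase.2 ⟨hne, hx⟩
    rw [← show Iᶜ.erase x = Iᶜ.erase y from h] at h2
    exact notMem_erase _ _ h2

/-- an operator that anticommutes with `KK` is zero -/
theorem anti_zero (hr : r = 2 * m + 1) (h2 : (2 : K) ≠ 0)
    (hK : ∀ s : ℕ, 0 < s → s ≤ m + 1 → (s : K) ≠ 0) (D : Finset (Fin r) → Finset (Fin r) → K)
    (hD : ∀ I J : Finset (Fin r), I.card = m → J.card = m →
      KK (fun I => D I J) I = -KK (fun J => D I J) J) :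
    ∀ I J : Finset (Fin r), I.card = m → J.card = m → D I J = 0 := by
  -- the action on functions
  let A : (Finset (Fin r) → K) → Finset (Fin r) → K := fun f I =>
    ∑ J, if J.card = m then D I J * f J else 0
  have hA : ∀ f I, A f I = ∑ J, if J.card = m then D I J * f J else 0 := fun _ _ => rfl
  have hanti : ∀ f (I : Finset (Fin r)), I.card = m → KK (A f) I = -A (KK f) I := by
    intro f I hI
    have h1 : KK (A f) I = ∑ J, if J.card = m then KK (fun I => D I J) I * f J else 0 := by
      unfold KK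
      simp only [hA]
      rw [sum_comm]
      refine sum_congr rfl fun J _ => ?_
      split_ifs
      · rw [sum_mul]
      · exact sum_const_zero
    have h2 : A (KK f) I = ∑ J, if J.card = m then KK (fun J => D I J) J * f J else 0 := by
      rw [hA]
      have h3 : ∀ J : Finset (Fin r), (if J.card = m then D I J * KK f J else 0) =
          ∑ P, if (J.card = m ∧ P.card = m) ∧ Disjoint P J then D I J * f P else 0 := by
        intro J
        by_cases hJ : J.card = m
        · rw [if_pos hJ, KK_sum hr f hJ, mul_sum]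
          refine sum_congr rfl fun P _ => ?_
          by_cases hP : P.card = m ∧ Disjoint P J
          · rw [if_pos hP, if_pos ⟨⟨hJ, hP.1⟩, hP.2⟩]
          · rw [if_neg hP, if_neg (fun h => hP ⟨h.1.2, h.2⟩), mul_zero]
        · rw [if_neg hJ]
          exact (sum_eq_zero fun P _ => if_neg fun h => hJ h.1.1).symm
      rw [sum_congr rfl fun J _ => h3 J, sum_comm]
      refine sum_congr rfl fun P _ => ?_
      by_cases hP : P.card = m
      · rw [if_pos hP, KK_sum hr _ hP, sum_mul]
        refine sum_congr rfl fun J _ => ?_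
        by_cases hJ : J.card = m ∧ Disjoint J P
        · rw [if_pos hJ, if_pos ⟨⟨hJ.1, hP⟩, hJ.2.symm⟩]
        · rw [if_neg hJ, if_neg (fun h => hJ ⟨h.1.1, h.2.symm⟩), zero_mul]
      · rw [if_neg hP]
        exact sum_eq_zero fun J _ => if_neg fun h => hP h.1.2
    rw [h1, h2, ← sum_neg_distrib]
    refine sum_congr rfl fun J _ => ?_
    by_cases hJ : J.card = m
    · rw [if_pos hJ, if_pos hJ, hD I J hI hJ, neg_mul]
    · rw [if_neg hJ, if_neg hJ, neg_zero]
  -- induction along the filtration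
  have hmain : ∀ j, j ≤ m + 1 → ∀ f, InW m j f → ∀ I : Finset (Fin r), I.card = m → A f I = 0 := by
    intro j
    induction j with
    | zero =>
      rintro - f ⟨u, h0, hu⟩ I hI
      rw [hA]
      refine sum_eq_zero fun J _ => ?_
      by_cases hJ : J.card = m
      · rw [if_pos hJ, hu J hJ, sum_eq_zero fun T _ => h0 T (Nat.zero_le _), mul_zero]
      · rw [if_neg hJ]
    | succ j ih =>
      intro hj f hf
      refine eig_zero hr (μ := -lam m j) (fun i hi => lam_ne h2 hK hi (by omega)) fun I hI => ?_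
      have h1 := ih (by omega) _ (inW_step hr hf) I hI
      rw [hanti f I hI]
      have h4 : A (fun I => KK f I - lam m j * f I) I = A (KK f) I - lam m j * A f I := by
        simp only [hA]
        rw [mul_sum, ← sum_sub_distrib]
        refine sum_congr rfl fun J _ => ?_
        split_ifs <;> ring
      rw [h4] at h1
      linear_combination -h1
  intro I J hI hJ
  have h1 := hmain (m + 1) le_rfl (fun P => if P = J then 1 else 0) (inW_top _) I hI
  rw [hA, sum_eq_single J, if_pos hJ, if_pos rfl, mul_one] at h1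
  · exact h1
  · intro P _ hP
    rw [if_neg hP, mul_zero, ite_self]
  · intro h
    exact absurd (mem_univ _) h

theorem mirror {K : Type*} [Field K] {r m : ℕ} (hr : r = 2 * m + 1) (h2 : (2 : K) ≠ 0)
    (hK : ∀ s : ℕ, 0 < s → s ≤ m + 1 → (s : K) ≠ 0) (g : Finset (Fin r) → Finset (Fin r) → K)
    (hs : ∀ I J, I.card = m + 1 → J.card = m →
      ∑ i ∈ I, g (I.erase i) J = ∑ j ∈ Jᶜ, g I (insert j J))
    (ht : ∀ I J, I.card = m → J.card = m + 1 →
      ∑ j ∈ J, g I (J.erase j) = ∑ i ∈ Iᶜ, g (insert i I) J) :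
    ∀ I J, I.card = m → J.card = m → g Iᶜ Jᶜ = g I J := by
  have hce : ∀ (J : Finset (Fin r)) (j : Fin r), (Jᶜ.erase j)ᶜ = insert j J := by
    intro J j
    rw [compl_erase, compl_compl]
  have h := anti_zero hr h2 hK (fun I J => g Iᶜ Jᶜ - g I J) fun I J hI hJ => by
    have h1 := hs Iᶜ J (card_compl_eq hr hI) hJ
    have h3 := ht I Jᶜ hI (card_compl_eq hr hJ)
    show ∑ x ∈ Iᶜ, (g (Iᶜ.erase x)ᶜ Jᶜ - g (Iᶜ.erase x) J) =
      -∑ y ∈ Jᶜ, (g Iᶜ (Jᶜ.erase y)ᶜ - g I (Jᶜ.erase y))
    simp only [hce]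
    rw [sum_sub_distrib, sum_sub_distrib, h1, h3]
    ring
  intro I J hI hJ
  exact sub_eq_zero.1 (h I J hI hJ)

end Pool.Agent.H64SwK
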