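import Pool.Agent.H64SwK.Defs

/-!
# The up operator is injective in large characteristic (helper64)

For `2 k < r` a function on the `k`-subsets of an `r`-set is zero if all sums over the `k`-subsets
of a `(k+1)`-set are zero; the field has to contain the inverses of `1, ..., k + 1`.
-/

set_option autoImplicit false

open Finset

namespace Pool.Agent.H64SwK

theorem reindex {K : Type*} [Field K] {r : ℕ} (f : Finset (Fin r) → Fin r → K) :
    ∑ I, ∑ i ∈ I, f I i = ∑ X : Finset (Fin r), ∑ i ∈ Xᶜ, f (insert i X) i := by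
  rw [Finset.sum_sigma', Finset.sum_sigma']
  refine Finset.sum_bij' (fun p _ => ⟨p.1.erase p.2, p.2⟩) (fun p _ => ⟨insert p.2 p.1, p.2⟩)
    ?_ ?_ ?_ ?_ ?_
  · rintro ⟨I, i⟩ h
    simp
  · rintro ⟨I, i⟩ h
    simp
  · rintro ⟨I, i⟩ h
    simp only [mem_sigma, mem_univ, true_and] at h
    simp [Finset.insert_erase h]
  · rintro ⟨I, i⟩ h
    simp only [mem_sigma, mem_univ, mem_compl, true_and] at h
    simp [Finset.erase_insert h]
  · rintro ⟨I, i⟩ h
    simp only [mem_sigma, mem_univ, true_and] at h
    simp [Finset.insert_erase h]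

/-- the number of `i ∈ G \ X` with `B ⊆ X + i` -/
theorem count {r k : ℕ} {G X B : Finset (Fin r)} (hG : G.card = 2 * k + 1) (hX : X.card = k)
    (hXG : X ⊆ G) (hB : B ⊆ G) :
    ((G \ X).filter fun i => B ⊆ insert i X).card + (if B ⊆ X then B.card else 0) =
      (if B ⊆ X then k + 1 else 0) + (B.filter fun i => B.erase i ⊆ X).card := by
  by_cases h : B ⊆ X
  · rw [if_pos h, if_pos h]
    have e1 : ((G \ X).filter fun i => B ⊆ insert i X) = G \ X := by
      rw [filter_eq_self]
      intro i _
      exact h.trans (subset_insert i X)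
    have e2 : (B.filter fun i => B.erase i ⊆ X) = B := by
      rw [filter_eq_self]
      intro i _
      exact (erase_subset i B).trans h
    rw [e1, e2, card_sdiff_of_subset hXG, hG, hX]
    omega
  · rw [if_neg h, if_neg h, add_zero, zero_add]
    congr 1
    ext i
    simp only [mem_filter, mem_sdiff]
    constructor
    · rintro ⟨⟨h1, h2⟩, h3⟩
      have hi : i ∈ B := by
        by_contra hn
        apply h
        intro x hx
        rcases mem_insert.1 (h3 hx) with rfl | h4
        · exact absurd hx hn
        · exact h4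
      refine ⟨hi, fun x hx => ?_⟩
      rw [mem_erase] at hx
      rcases mem_insert.1 (h3 hx.2) with h4 | h4
      · exact absurd h4 hx.1
      · exact h4
    · rintro ⟨h1, h2⟩
      have hi : i ∉ X := by
        intro hn
        apply h
        intro x hx
        by_cases e : x = i
        · rw [e]; exact hn
        · exact h2 (mem_erase.2 ⟨e, hx⟩)
      refine ⟨⟨hB h1, hi⟩, fun x hx => ?_⟩
      by_cases e : x = i
      · rw [e]; exact mem_insert_self i X
      · exact mem_insert_of_mem (h2 (mem_erase.2 ⟨e, hx⟩))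

theorem step {K : Type*} [Field K] {r k : ℕ} {G : Finset (Fin r)} (hG : G.card = 2 * k + 1)
    (u : Finset (Fin r) → K) (hu : ∀ I, I.card ≠ k → u I = 0)
    (h : ∀ I, ∑ i ∈ I, u (I.erase i) = 0) {B : Finset (Fin r)} (hB : B ⊆ G) :
    ((k + 1 : ℕ) : K) * ∑ X : Finset (Fin r), (if X ⊆ G ∧ B ⊆ X then u X else 0) +
      ∑ i ∈ B, ∑ X : Finset (Fin r), (if X ⊆ G ∧ B.erase i ⊆ X then u X else 0) =
      (B.card : K) * ∑ X : Finset (Fin r), (if X ⊆ G ∧ B ⊆ X then u X else 0) := by
  have h1 : ∑ I : Finset (Fin r), ∑ i ∈ I,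
      (if I ⊆ G ∧ B ⊆ I then u (I.erase i) else 0) = 0 := by
    refine sum_eq_zero fun I _ => ?_
    by_cases hI : I ⊆ G ∧ B ⊆ I
    · simp only [if_pos hI]; exact h I
    · simp only [if_neg hI]; simp
  rw [reindex (fun I i => if I ⊆ G ∧ B ⊆ I then u (I.erase i) else 0)] at h1
  have h2 : ∀ X : Finset (Fin r), ∑ i ∈ Xᶜ,
      (if insert i X ⊆ G ∧ B ⊆ insert i X then u ((insert i X).erase i) else 0) +
      (B.card : K) * (if X ⊆ G ∧ B ⊆ X then u X else 0) =
      ((k + 1 : ℕ) : K) * (if X ⊆ G ∧ B ⊆ X then u X else 0) +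
        ∑ i ∈ B, (if X ⊆ G ∧ B.erase i ⊆ X then u X else 0) := by
    intro X
    by_cases hX : X ⊆ G
    · by_cases hXk : X.card = k
      · have e : ∑ i ∈ Xᶜ,
            (if insert i X ⊆ G ∧ B ⊆ insert i X then u ((insert i X).erase i) else 0) =
            ((((G \ X).filter fun i => B ⊆ insert i X).card : ℕ) : K) * u X := by
          rw [← nsmul_eq_mul, ← sum_const, sum_filter]
          have e2 : (G \ X) = Xᶜ.filter fun i => i ∈ G := by
            ext i
            simp only [mem_filter, mem_compl, mem_sdiff]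
            tauto
          rw [e2, sum_filter]
          refine sum_congr rfl fun i hi => ?_
          rw [mem_compl] at hi
          rw [erase_insert hi]
          have e3 : insert i X ⊆ G ↔ i ∈ G := by
            rw [insert_subset_iff]
            exact ⟨fun hh => hh.1, fun hh => ⟨hh, hX⟩⟩
          by_cases hiG : i ∈ G <;> by_cases hBi : B ⊆ insert i X <;> simp [e3, hiG, hBi]
        have e' : ∑ i ∈ B, (if X ⊆ G ∧ B.erase i ⊆ X then u X else 0) =
            (((B.filter fun i => B.erase i ⊆ X).card : ℕ) : K) * u X := by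
          rw [← nsmul_eq_mul, ← sum_const, sum_filter]
          refine sum_congr rfl fun i _ => ?_
          simp [hX]
        rw [e, e']
        have hc := count hG hXk hX hB
        have hc' := congrArg (fun n : ℕ => (n : K) * u X) hc
        by_cases hBX : B ⊆ X
        · simp only [hBX, if_true, Nat.cast_add] at hc'
          rw [if_pos ⟨hX, hBX⟩]
          rw [add_mul, add_mul] at hc'
          exact_mod_cast hc'
        · simp only [hBX, if_false, add_zero, zero_add] at hc'
          rw [if_neg (fun hh => hBX hh.2)]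
          simpa using hc'
      · have e : ∑ i ∈ Xᶜ,
            (if insert i X ⊆ G ∧ B ⊆ insert i X then u ((insert i X).erase i) else 0) = 0 := by
          refine sum_eq_zero fun i hi => ?_
          rw [mem_compl] at hi
          rw [erase_insert hi, hu X hXk]
          simp
        rw [e, hu X hXk]; simp
    · have e : ∑ i ∈ Xᶜ,
          (if insert i X ⊆ G ∧ B ⊆ insert i X then u ((insert i X).erase i) else 0) = 0 := by
        refine sum_eq_zero fun i hi => ?_
        rw [if_neg]
        exact fun hh => hX ((subset_insert i X).trans hh.1)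
      rw [e]
      simp [hX]
  have h3 := sum_congr (rfl : (univ : Finset (Finset (Fin r))) = univ) fun X _ => h2 X
  rw [sum_add_distrib, h1, zero_add, sum_add_distrib, ← mul_sum, ← mul_sum, sum_comm] at h3
  exact h3.symm

theorem up_inj {K : Type*} [Field K] {r k : ℕ} (hk : 2 * k < r)
    (hK : ∀ s : ℕ, 0 < s → s ≤ k + 1 → (s : K) ≠ 0) (u : Finset (Fin r) → K)
    (hu : ∀ I, I.card ≠ k → u I = 0) (h : ∀ I, ∑ i ∈ I, u (I.erase i) = 0) :
    ∀ I, u I = 0 := by
  intro A
  by_cases hA : A.card = k
  swap
  · exact hu A hA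
  obtain ⟨G, hAG, hG⟩ : ∃ G : Finset (Fin r), A ⊆ G ∧ G.card = 2 * k + 1 := by
    obtain ⟨G, h1, _, h3⟩ := Finset.exists_subsuperset_card_eq (s := A) (t := univ)
      (n := 2 * k + 1) (subset_univ A) (by omega) (by simpa using hk)
    exact ⟨G, h1, h3⟩
  have key : ∀ n : ℕ, ∀ B : Finset (Fin r), B.card = n → B ⊆ G → n ≤ k →
      ∑ X : Finset (Fin r), (if X ⊆ G ∧ B ⊆ X then u X else 0) = 0 := by
    intro n
    induction n with
    | zero =>
      intro B hB hBG hn
      have h1 := step hG u hu h hBG
      rw [card_eq_zero.1 hB] at h1 ⊢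
      rw [card_empty, Nat.cast_zero, zero_mul, sum_empty, add_zero] at h1
      exact (mul_eq_zero.1 h1).resolve_left (hK (k + 1) (by omega) le_rfl)
    | succ n ih =>
      intro B hB hBG hn
      have h1 := step hG u hu h hBG
      have h2 : ∑ i ∈ B, ∑ X : Finset (Fin r), (if X ⊆ G ∧ B.erase i ⊆ X then u X else 0) = 0 := by
        refine sum_eq_zero fun i hi => ih (B.erase i) ?_ ((erase_subset i B).trans hBG) (by omega)
        rw [card_erase_of_mem hi]
        omega
      rw [h2, add_zero, ← sub_eq_zero, ← sub_mul] at h1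
      refine (mul_eq_zero.1 h1).resolve_left ?_
      rw [← Nat.cast_sub (by omega)]
      exact hK _ (by omega) (by omega)
  have := key k A hA hAG le_rfl
  have e : ∑ X : Finset (Fin r), (if X ⊆ G ∧ A ⊆ X then u X else 0) = u A := by
    rw [Finset.sum_eq_single A]
    · rw [if_pos ⟨hAG, Subset.refl A⟩]
    · intro X _ hne
      split_ifs with h1
      · apply hu
        intro hc
        exact hne (eq_of_subset_of_card_le h1.2 (by omega)).symm
      · rfl
    · intro hn
      exact absurd (mem_univ A) hn
  rw [← e]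
  exact this

end Pool.Agent.H64SwK
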